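import Pool.Agent.TH467.OC.Count

/-!
# Perfect matchings without odd cuts in `5`-regular graphs

Multigraphs with edge set `E`, the ends of the edge `e` are `a e` and `b e`.

* `delta a b X`: the cut `δ(X)`, the edges with exactly one end in `X`.
* `PM a b M`: `M` is a perfect matching.
* `OddCut a b D`: `D = δ(X)` for a set `X` with an odd number of vertices.
* `badCuts a b`: the odd cuts `D` which are contained in a perfect matching and contain no other odd cut.

Proof.  By Edmonds' theorem there is a probability distribution on the perfect matchings for which all edges
have probability `1/5`; it contains a bad cut `D` with probability at most `(|D| - 5) / (5 (|D| - 1))`.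
-/

set_option autoImplicit false

namespace Pool.Agent.Results.MP_ace318_co.FewOddCuts

open Finset Pool.Agent.TH467.OC

/-- A loopless `4`-edge-connected `5`-regular graph has a perfect matching which contains no odd cut, if
the bad cuts `D` satisfy `∑ (|D| - 5) / (|D| - 1) < 5`, in particular if at most five bad cuts have seven
or more edges, or if at most fourteen have seven edges and none has more. -/
theorem result {V E : Type} [Fintype V] [DecidableEq V] [Fintype E] [DecidableEq E] (a b : E → V)
    (noloop : ∀ e, a e ≠ b e)
    (regular : ∀ v, (univ.filter fun e => a e = v ∨ b e = v).card = 5)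
    (connected : ∀ X : Finset V, X.Nonempty → X ≠ univ → 4 ≤ (delta a b X).card)
    (few : ∑ D ∈ badCuts a b, ((D.card : ℝ) - 5) / (D.card - 1) < 5 ∨
      ((badCuts a b).filter fun D => 7 ≤ D.card).card ≤ 5 ∨
      (((badCuts a b).filter fun D => 7 ≤ D.card).card ≤ 14 ∧ ∀ D ∈ badCuts a b, D.card ≤ 7)) :
    ∃ M, PM a b M ∧ ∀ X : Finset V, Odd X.card → ¬ delta a b X ⊆ M :=
  one_of_few (rg_five noloop regular connected) few

end Pool.Agent.Results.MP_ace318_co.FewOddCuts
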